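import Pool.Agent.helper77.PV.SpecK

/-!
# Project pv, row pvk:KSB: stability for every base
-/

set_option autoImplicit false

open scoped Matrix Topology
open Filter

namespace Pool.Agent.PV

open Pool.Agent.CZ Pool.Agent.PVH

theorem KSB (hYSP : YSP_stmt) (hDXA : DXA_stmt) (hLCP : LCP_stmt) (hCOE : COE_stmt) (hDFN : DFN_stmt)
    (hDTB : DTB_stmt) (hKSX : KSX_stmt) : KSB_stmt := by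
  intro X₀ _ _ _ _ α₀ hα₀ A₀ _ ι₀ u₀ hcp₀ S₀ S₁ _ _ _ _
  obtain ⟨Y, _, _, _, _, y, ⟨σ₀⟩, ⟨σ₁⟩⟩ := hYSP S₀ S₁
  obtain ⟨X, iX, iXc, iXm, iXi, α, π, e, r, hα, hE⟩ := hDXA X₀ Y α₀ hα₀
  obtain ⟨A, iA, ι, u, hcp⟩ := hLCP X α
  obtain ⟨c, hc⟩ := hCOE X α A ι u hcp
  obtain ⟨c₀, hc₀⟩ := hCOE X₀ α₀ A₀ ι₀ u₀ hcp₀
  obtain ⟨Φ, hΦι, hΦu, hΦc⟩ := hDFN X X₀ α α₀ π hE.eqv A A₀ ι u c ι₀ u₀ c₀ hc hc₀ hcp₀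
  obtain ⟨-, hT2, hT3, -⟩ := hDTB X₀ Y X α₀ α π e r hE hα₀ hα A A₀ ι u c ι₀ u₀ c₀ hc hc₀ Φ hΦι hΦc
  refine ⟨X, iX, iXc, iXm, iXi, α, π, hα, hE.sur, hE.eqv, hE.one, A, iA, ι, u, hcp,
    ⟨Φ, hΦι, hΦu, hT2, hT3⟩, ?_⟩
  intro G₀ _ g G₁ _ E _ _ _ K ρ hI
  exact hKSX X₀ Y X α₀ α π e r hE hα₀ hα A A₀ ι u c ι₀ u₀ c₀ hc hc₀ Φ hΦι hΦu hΦc y S₀ S₁ σ₀ σ₁
    G₀ g G₁ E K ρ hI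

end Pool.Agent.PV
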