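import Pool.Agent.helper45.PV.SpecG

/-!
# Project pv, row pvg:S1S: the split extension `L1 D → C(circle, D) → D`
-/

set_option autoImplicit false

open scoped Matrix Topology

namespace Pool.Agent.PV

open Pool.Agent.CZ

theorem S1S : S1S_stmt := by
  intro D _ _
  refine ⟨fun x => vL_norm x, ?_, fun x => vL_mem x, ?_, ?_, fun d => rfl⟩
  · rintro c ⟨z, hz⟩
    exact vL_ex c z hz
  · exact continuous_eval_const (0 : UnitAddCircle)
  · exact ContinuousMap.continuous_const'

end Pool.Agent.PV
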